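import Pool.Agent.H25.DP.Targets3
import Mathlib.NumberTheory.Chebyshev

/-!
# Two dilations: module DND (the density condition for Dirichlet `L`-functions)
-/

set_option autoImplicit false

open Complex MeasureTheory Set Filter Topology

namespace Pool.Agent.H76.DP.DND

open Pool.Agent.H25.DP Pool.Agent.H25.DL Pool.Agent.H23.GLH

lemma theta_diff {Y : ℕ} (hY : 24010000 ≤ Y) :
    (Y : ℝ) ≤ Chebyshev.theta ((4 * Y : ℕ) : ℝ) - Chebyshev.theta (Y : ℝ) := by
  have h1 := Chebyshev.theta_ge (4 * Y)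
  have h2 := Chebyshev.theta_le_log4_mul_x (x := (Y : ℝ)) (Nat.cast_nonneg _)
  have hY0 : (24010000 : ℝ) ≤ (Y : ℝ) := by exact_mod_cast hY
  have hYp : (0 : ℝ) < Y := by linarith
  obtain ⟨w, hw, hwY⟩ : ∃ w : ℝ, 70 ≤ w ∧ w ^ 4 = (Y : ℝ) := by
    refine ⟨(Y : ℝ) ^ (1 / 4 : ℝ), ?_, ?_⟩
    · have : (70 : ℝ) = (24010000 : ℝ) ^ (1 / 4 : ℝ) := by
        rw [show (24010000 : ℝ) = 70 ^ (4 : ℝ) by norm_num, ← Real.rpow_mul (by norm_num)]
        norm_num
      rw [this]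
      exact Real.rpow_le_rpow (by norm_num) hY0 (by norm_num)
    · rw [← Real.rpow_natCast, ← Real.rpow_mul hYp.le]
      norm_num
  have hwp : 0 < w := by linarith
  have hlog4 : Real.log 4 = 2 * Real.log 2 := by
    rw [show (4 : ℝ) = 2 ^ 2 by norm_num, Real.log_pow]
    norm_num
  have hl2 := Real.log_two_gt_d9
  have hsq : Real.sqrt ((4 * Y : ℕ) : ℝ) = 2 * w ^ 2 := by
    rw [Nat.cast_mul, ← hwY, show (((4 : ℕ) : ℝ) * w ^ 4) = (2 * w ^ 2) ^ 2 by push_cast; ring,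
      Real.sqrt_sq (by positivity)]
  have hlogw : Real.log w ≤ w - 1 := Real.log_le_sub_one_of_pos hwp
  have hlY : Real.log ((4 * Y : ℕ) : ℝ) ≤ 4 * w := by
    rw [Nat.cast_mul, ← hwY, Real.log_mul (by norm_num) (by positivity), Real.log_pow]
    push_cast
    have := Real.log_two_lt_d9
    rw [hlog4]
    linarith
  have hlY1 : Real.log (((4 * Y : ℕ) : ℝ) + 1) ≤ 5 * w := by
    have h3 : ((4 * Y : ℕ) : ℝ) + 1 ≤ 8 * w ^ 4 := by
      push_cast
      rw [hwY]
      linarith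
    refine (Real.log_le_log (by positivity) h3).trans ?_
    rw [Real.log_mul (by norm_num) (by positivity), Real.log_pow,
      show (8 : ℝ) = 2 ^ 3 by norm_num, Real.log_pow]
    push_cast
    have := Real.log_two_lt_d9
    linarith
  have hlY0 : 0 ≤ Real.log ((4 * Y : ℕ) : ℝ) := Real.log_natCast_nonneg _
  rw [hsq] at h1
  have h4 : 2 * (2 * w ^ 2) * Real.log ((4 * Y : ℕ) : ℝ) ≤ 16 * w ^ 3 := by
    have := mul_le_mul_of_nonneg_left hlY (show (0 : ℝ) ≤ 2 * (2 * w ^ 2) by positivity)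
    nlinarith
  have h5 : ((4 * Y : ℕ) : ℝ) = 4 * w ^ 4 := by push_cast; rw [hwY]
  rw [hlog4, ← hwY] at h2
  rw [← hwY]
  rw [h5] at h1 hlY1 h4 ⊢
  have h6 : 70 * w ^ 3 ≤ w ^ 4 := by
    have : 0 ≤ w ^ 3 := by positivity
    nlinarith
  have h7 : 4900 * w ≤ w ^ 3 := by
    have : 0 ≤ w * (w - 70) := mul_nonneg hwp.le (by linarith)
    nlinarith
  have h8 : (0 : ℝ) ≤ w ^ 4 := by positivity
  nlinarith

lemma block_sum {Y : ℕ} (hY : 24010000 ≤ Y) :
    1 / (4 * Real.log (4 * Y)) ≤ ∑ p ∈ (Finset.Ico Y (4 * Y)).filter Nat.Prime, (1 : ℝ) / p := by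
  have h1 := theta_diff hY
  have hYp : 0 < Y := by omega
  have hYr : (0 : ℝ) < Y := by exact_mod_cast hYp
  have hlog : 0 < Real.log (4 * Y) := Real.log_pos (by
    have : (24010000 : ℝ) ≤ (Y : ℝ) := by exact_mod_cast hY
    linarith)
  have h2 : Chebyshev.theta ((4 * Y : ℕ) : ℝ) - Chebyshev.theta (Y : ℝ) ≤
      ∑ p ∈ (Finset.Ico Y (4 * Y)).filter Nat.Prime, Real.log p := by
    rw [Chebyshev.theta, Chebyshev.theta, Nat.floor_natCast, Nat.floor_natCast,
      ← Finset.Ioc_union_Ioc_eq_Ioc (Nat.zero_le Y) (show Y ≤ 4 * Y by omega),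
      Finset.filter_union, Finset.sum_union]
    · rw [add_sub_cancel_left]
      refine Finset.sum_le_sum_of_subset_of_nonneg ?_ ?_
      · intro p hp
        rw [Finset.mem_filter, Finset.mem_Ioc] at hp
        rw [Finset.mem_filter, Finset.mem_Ico]
        refine ⟨⟨hp.1.1.le, lt_of_le_of_ne hp.1.2 ?_⟩, hp.2⟩
        rintro rfl
        have : 4 ∣ 4 * Y := Dvd.intro _ rfl
        have h3 := (Nat.dvd_prime hp.2).1 this
        omega
      · intro p _ _
        exact Real.log_natCast_nonneg _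
    · refine Finset.disjoint_filter_filter ?_
      rw [Finset.disjoint_left]
      intro a ha hb
      rw [Finset.mem_Ioc] at ha hb
      omega
  have h3 : ∑ p ∈ (Finset.Ico Y (4 * Y)).filter Nat.Prime, Real.log p ≤
      ∑ p ∈ (Finset.Ico Y (4 * Y)).filter Nat.Prime, (4 * Y * Real.log (4 * Y)) * ((1 : ℝ) / p) := by
    refine Finset.sum_le_sum fun p hp => ?_
    rw [Finset.mem_filter, Finset.mem_Ico] at hp
    have hp0 : (0 : ℝ) < p := by exact_mod_cast hp.2.pos
    have hp1 : (p : ℝ) ≤ 4 * Y := by exact_mod_cast hp.1.2.le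
    have h4 : Real.log p ≤ Real.log (4 * Y) := Real.log_le_log hp0 hp1
    rw [mul_one_div, le_div_iff₀ hp0]
    have h5 : 0 ≤ Real.log p := Real.log_natCast_nonneg _
    calc Real.log p * p ≤ Real.log (4 * Y) * (4 * Y) :=
          mul_le_mul h4 hp1 hp0.le hlog.le
      _ = 4 * Y * Real.log (4 * Y) := by ring
  rw [← Finset.mul_sum] at h3
  have h4 : (Y : ℝ) ≤ 4 * Y * Real.log (4 * Y) *
      ∑ p ∈ (Finset.Ico Y (4 * Y)).filter Nat.Prime, (1 : ℝ) / p := by linarith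
  rw [div_le_iff₀ (by positivity)]
  have h5 : (Y : ℝ) * 1 ≤ Y * ((∑ p ∈ (Finset.Ico Y (4 * Y)).filter Nat.Prime, (1 : ℝ) / p) *
      (4 * Real.log (4 * Y))) := by
    linarith
  exact le_of_mul_le_mul_left h5 hYr

lemma two_blocks {Y : ℕ} (hY : 24010000 ≤ Y) :
    ∃ X : ℕ, (X = Y ∨ X = 2 * Y) ∧
      1 / (8 * Real.log (4 * Y)) ≤ ∑ p ∈ (Finset.Ico X (2 * X)).filter Nat.Prime, (1 : ℝ) / p := by
  have h1 := block_sum hY
  rw [← Finset.Ico_union_Ico_eq_Ico (show Y ≤ 2 * Y by omega) (show 2 * Y ≤ 4 * Y by omega),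
    Finset.filter_union, Finset.sum_union] at h1
  · by_contra hcon
    push Not at hcon
    have h2 := hcon Y (Or.inl rfl)
    have h3 := hcon (2 * Y) (Or.inr rfl)
    rw [show 2 * (2 * Y) = 4 * Y by ring] at h3
    have h4 : 1 / (4 * Real.log (4 * Y)) =
        1 / (8 * Real.log (4 * Y)) + 1 / (8 * Real.log (4 * Y)) := by
      have hlog : 0 < Real.log (4 * Y) := Real.log_pos (by
        have : (24010000 : ℝ) ≤ (Y : ℝ) := by exact_mod_cast hY
        linarith)
      field_simp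
      norm_num
    linarith
  · refine Finset.disjoint_filter_filter ?_
    rw [Finset.disjoint_left]
    intro a ha hb
    rw [Finset.mem_Ico] at ha hb
    omega

lemma norm_chz (π : PrimChar) {p : ℕ} (hp : p.Prime) (hq : π.q < p) : ‖chz π p‖ = 1 := by
  have := π.q_ne
  have hco : p.Coprime π.q := by
    rw [Nat.Prime.coprime_iff_not_dvd hp]
    exact Nat.not_dvd_of_pos_of_lt (Nat.pos_of_ne_zero π.q_ne.ne) hq
  rw [chz, if_neg hp.ne_zero, ← ZMod.coe_unitOfCoprime p hco]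
  exact DirichletCharacter.unit_norm_eq_one _ _

theorem dnd : T_DND := by
  intro π L hn hL x₁ x₂ ε hx₁ hx hε
  have hx₂ : 0 < x₂ := hx₁.trans hx
  -- eventual facts
  have ev1 : ∀ᶠ T : ℝ in atTop, 16 * Real.log 2 ≤ T ^ ε :=
    (tendsto_rpow_atTop hε).eventually_ge_atTop _
  have ev2 : ∀ᶠ T : ℝ in atTop, ‖Real.log T‖ ≤ 1 / (16 * x₂) * ‖T ^ ε‖ :=
    (isLittleO_log_rpow_atTop hε).def (by positivity)
  have ev3 : ∀ᶠ T : ℝ in atTop, (4 * (24010000 + π.q + 2) : ℝ) ≤ T ^ x₂ :=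
    (tendsto_rpow_atTop hx₂).eventually_ge_atTop _
  have ev4 : ∀ᶠ T : ℝ in atTop, (4 : ℝ) ≤ T ^ (x₂ - x₁) :=
    (tendsto_rpow_atTop (sub_pos.2 hx)).eventually_ge_atTop _
  obtain ⟨T₀, hT₀⟩ := Filter.eventually_atTop.1
    (ev1.and (ev2.and (ev3.and (ev4.and (eventually_ge_atTop (1 : ℝ))))))
  refine ⟨T₀, fun T hT => ?_⟩
  obtain ⟨e1, e2, e3, e4, e5⟩ := hT₀ T hT
  have hTp : 0 < T := by linarith
  have hfl := Nat.lt_floor_add_one (T ^ x₂ / 2)
  have hfl2 := Nat.floor_le (show 0 ≤ T ^ x₂ / 2 by positivity)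
  set Y : ℕ := ⌊T ^ x₂ / 2⌋₊ with hYdef
  have hq0 : (0 : ℝ) ≤ π.q := Nat.cast_nonneg _
  have hYbig : (24010000 + π.q + 1 : ℝ) ≤ Y := by linarith
  have hY : 24010000 ≤ Y := by
    have : (24010000 : ℝ) ≤ Y := by linarith
    exact_mod_cast this
  have hYq : π.q < Y := by
    have : ((π.q : ℕ) : ℝ) < Y := by linarith
    exact_mod_cast this
  have hYx₁ : T ^ x₁ ≤ Y := by
    have h1 : T ^ x₂ = T ^ x₁ * T ^ (x₂ - x₁) := by
      rw [← Real.rpow_add hTp]
      congr 1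
      ring
    have h2 : 0 < T ^ x₁ := by positivity
    have h3 : 4 * T ^ x₁ ≤ T ^ x₂ := by
      rw [h1]
      nlinarith
    linarith
  have h2Y : ((2 * Y : ℕ) : ℝ) ≤ T ^ x₂ := by
    push_cast
    linarith
  obtain ⟨X, hX, hsum⟩ := two_blocks hY
  have hXY : Y ≤ X := by rcases hX with rfl | rfl <;> omega
  refine ⟨X, hYx₁.trans (by exact_mod_cast hXY), ?_, ?_⟩
  · refine le_trans ?_ h2Y
    rcases hX with rfl | rfl
    · exact_mod_cast (by omega : Y ≤ 2 * Y)
    · exact le_rfl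
  · have h1 : ∑ p ∈ (Finset.Ico X (2 * X)).filter Nat.Prime, ‖∑ i, L.h i p‖ ^ 2 / p =
        ∑ p ∈ (Finset.Ico X (2 * X)).filter Nat.Prime, (1 : ℝ) / p := by
      refine Finset.sum_congr rfl fun p hp => ?_
      rw [Finset.mem_filter, Finset.mem_Ico] at hp
      have h2 : ∑ i, L.h i p = chz π p := by
        rw [Finset.sum_congr rfl fun i _ => hL i p]
        simp [hn]
      rw [h2, norm_chz π hp.2 (by omega)]
      norm_num
    rw [h1]
    refine le_trans ?_ hsum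
    have hlogpos : 0 < Real.log (4 * Y) := Real.log_pos (by
      have : (24010000 : ℝ) ≤ (Y : ℝ) := by exact_mod_cast hY
      linarith)
    have hlogle : 8 * Real.log (4 * Y) ≤ T ^ ε := by
      have h3 : Real.log (4 * Y) ≤ Real.log 2 + x₂ * Real.log T := by
        rw [← Real.log_rpow hTp, ← Real.log_mul (by norm_num) (by positivity)]
        refine Real.log_le_log (by positivity) ?_
        linarith
      have h4 : Real.log T ≤ 1 / (16 * x₂) * T ^ ε := by
        have h5 := e2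
        rw [Real.norm_of_nonneg (Real.log_nonneg e5), Real.norm_of_nonneg (by positivity)] at h5
        exact h5
      have h5 : x₂ * Real.log T ≤ 1 / 16 * T ^ ε := by
        have := mul_le_mul_of_nonneg_left h4 hx₂.le
        have h6 : x₂ * (1 / (16 * x₂) * T ^ ε) = 1 / 16 * T ^ ε := by
          field_simp
        linarith
      linarith
    rw [Real.rpow_neg hTp.le, ← one_div]
    exact one_div_le_one_div_of_le (by positivity) hlogle

end Pool.Agent.H76.DP.DND
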