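import Pool.Agent.H25.DP.Targets3
import Pool.Agent.H48.DL.Ord

/-!
# Two dilations: module D2a (the theorem for Dirichlet `L`-functions and `a = 2`, after module D2 of helper29)
-/

set_option autoImplicit false

open Complex MeasureTheory Set Filter Topology

namespace Pool.Agent.H76.DP.D2a

open Pool.Agent.H25.DP Pool.Agent.H25.DL Pool.Agent.H48.DL Pool.Agent.H23.GLH

lemma fac_ext {f g : Fac} (h1 : f.c = g.c) (h2 : f.r = g.r) (h3 : f.τ = g.τ) : f = g := by
  cases f
  cases g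
  simp only at h1 h2 h3
  subst h1 h2 h3
  rfl

/-- the index types agree -/
noncomputable def eIx (P Q : LF) (a τ : ℝ) (ha : 0 < a) (hP : P.n = 1) (hQ : Q.n = 1) :
    Bool ≃ (prF P Q a τ ha).Ix where
  toFun
    | true => Sum.inl ⟨(), ⟨0, by rw [show ((prF P Q a τ ha).p ()).L.n = P.n from rfl, hP]; norm_num⟩⟩
    | false => Sum.inr ⟨(), ⟨0, by rw [show ((prF P Q a τ ha).q ()).L.n = Q.n from rfl, hQ]; norm_num⟩⟩
  invFun
    | Sum.inl _ => true
    | Sum.inr _ => false
  left_inv := by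
    intro l
    cases l <;> rfl
  right_inv := by
    rintro (⟨⟨⟩, i⟩ | ⟨⟨⟩, i⟩)
    · have h1 : i.val < P.n := i.isLt
      simp only
      congr 2
      apply Fin.ext
      simp only
      omega
    · have h1 : i.val < Q.n := i.isLt
      simp only
      congr 2
      apply Fin.ext
      simp only
      omega

lemma prF_d (P Q : LF) (a τ : ℝ) (ha : 0 < a) (hP : P.n = 1) (hQ : Q.n = 1) :
    (prF P Q a τ ha).d = a - 1 := by
  change ∑ _i : Unit, a * (P.n : ℝ) - ∑ _j : Unit, (1 : ℝ) * (Q.n : ℝ) = a - 1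
  rw [hP, hQ]
  simp

lemma prF_BC (P Q : LF) (τ : ℝ) (ha : (0 : ℝ) < 2) (hP : P.n = 1) (hQ : Q.n = 1) {p q : ℕ}
    (hp : p ≠ 0) (hq : q ≠ 0) (hPA : P.A = p) (hQA : Q.A = q) :
    Real.exp (-BC (prF P Q 2 τ ha) - (2 - 1)) = Real.pi * q / (2 * p ^ 2) := by
  have h1 : BC (prF P Q 2 τ ha) = 2 * (((1 : ℕ) : ℝ) * (Real.log (2 / (2 * Real.pi)) - 1) +
      Real.log p) - 1 * (((1 : ℕ) : ℝ) * (Real.log (1 / (2 * Real.pi)) - 1) + Real.log q) := by
    change ∑ _i : Unit, 2 * ((P.n : ℝ) * (Real.log (2 / (2 * Real.pi)) - 1) + Real.log P.A) -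
      ∑ _j : Unit, 1 * ((Q.n : ℝ) * (Real.log (1 / (2 * Real.pi)) - 1) + Real.log Q.A) = _
    rw [hP, hQ, hPA, hQA]
    simp
  have hpi := Real.pi_pos
  have hp' : (0 : ℝ) < p := by exact_mod_cast Nat.pos_of_ne_zero hp
  have hq' : (0 : ℝ) < q := by exact_mod_cast Nat.pos_of_ne_zero hq
  have h2 : -BC (prF P Q 2 τ ha) - (2 - 1) = Real.log (Real.pi * q / (2 * p ^ 2)) := by
    have k1 : Real.log (Real.pi * q / (2 * p ^ 2)) = Real.log Real.pi + Real.log q -
        (Real.log 2 + 2 * Real.log p) := by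
      rw [Real.log_div (by positivity) (by positivity), Real.log_mul (by positivity)
        (by positivity), Real.log_mul (by norm_num) (by positivity), Real.log_pow]
      push_cast
      ring
    have k2 : Real.log (2 / (2 * Real.pi)) = Real.log 2 - (Real.log 2 + Real.log Real.pi) := by
      rw [Real.log_div (by norm_num) (by positivity), Real.log_mul (by norm_num) (by positivity)]
    have k3 : Real.log (1 / (2 * Real.pi)) = -(Real.log 2 + Real.log Real.pi) := by
      rw [Real.log_div (by norm_num) (by positivity), Real.log_mul (by norm_num) (by positivity),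
        Real.log_one, zero_sub]
    rw [h1, k1, k2, k3]
    push_cast
    ring
  rw [h2, Real.exp_log (by positivity)]

lemma win_WF : Win (1 / 2) WF := by
  rintro T H W ⟨hT, rfl, rfl⟩
  refine ⟨by linarith, by linarith, ?_⟩
  rw [← Real.sqrt_eq_rpow]
  refine Real.sqrt_le_iff.2 ⟨by linarith, ?_⟩
  nlinarith

theorem d2a (h1 : T_FI4) (h2 : T_TRF) (h3 : T_AV2) (h5 : T_PHB) (h6 : T_DI2) : T_D2a := by
  intro ψ χ τ ε hε
  have ha0 : (0 : ℝ) < 2 := two_pos
  obtain ⟨P, hPn, hPnum, hPden, hPA, hPh⟩ := h6 ψ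
  obtain ⟨Q, hQn, hQnum, hQden, hQA, hQh⟩ := h6 χ
  set F := prF P Q 2 τ ha0 with hF
  have hFd : F.d = 2 - 1 := prF_d P Q 2 τ ha0 hPn hQn
  obtain ⟨t₀, η, C, κ, hph, hκ, hmain⟩ := h5 F
  -- the averages
  have hAV : AVH (fd ψ χ 2 τ ha0) F.Y 1 (2 - 1) WF := by
    refine h3 ψ χ τ F.Y (BC F) η t₀ C κ hph.diff hκ (fun t ht => ?_) ?_
    · have := hmain t ht
      rw [hFd] at this
      exact this
    · exact prF_BC P Q τ ha0 hPn hQn ψ.q_ne.ne χ.q_ne.ne hPA hQA
  have hAV' : AVH F.f F.Y 1 F.d WF := by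
    rw [hFd]
    refine h2 Bool F.Ix (eIx P Q 2 τ ha0 hPn hQn) (fd ψ χ 2 τ ha0) F.f F.Y 1 (2 - 1) WF ?_ hAV
    intro l
    cases l
    · refine fac_ext ?_ rfl rfl
      funext m
      change ((ArithmeticFunction.moebius m : ℤ) : ℂ) * Q.h _ m =
        ((ArithmeticFunction.moebius m : ℤ) : ℂ) * chz χ m
      rw [hQh]
    · refine fac_ext ?_ rfl rfl
      funext m
      change P.h _ m = chz ψ m
      rw [hPh]
  obtain ⟨T₀, hT₀⟩ := h1 F 2 1 1 (1 / 2) (ε / 2) WF (by rw [hFd]; linarith) one_pos (by linarith)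
    le_rfl (fun _ => Or.inl rfl) (fun _ => Or.inr rfl) (by norm_num) win_WF hAV' (by positivity)
  refine ⟨max (max T₀ 256) (max (4 ^ (2 / ε)) (|τ| + 1)), fun T hT => ?_⟩
  have hT1 : T₀ ≤ T := ((le_max_left _ _).trans (le_max_left _ _)).trans hT
  have hT2 : 256 ≤ T := ((le_max_right _ _).trans (le_max_left _ _)).trans hT
  have hT3 : (4 : ℝ) ^ (2 / ε) ≤ T := ((le_max_left _ _).trans (le_max_right _ _)).trans hT
  have hT4 : |τ| + 1 ≤ T := ((le_max_right _ _).trans (le_max_right _ _)).trans hT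
  have hTpos : 0 < T := by linarith
  obtain ⟨Z, hZ, hz⟩ := hT₀ T hT1 (5 * T / 4) (T / 2) ⟨by linarith, rfl, rfl⟩
  refine ⟨Z, ?_, fun z hzZ => ?_⟩
  · refine le_trans ?_ hZ
    rw [hFd, div_one]
    have e1 : T ^ (1 : ℝ) / 4 ≤ min (T / 2) ((T / 2) ^ 2 * T ^ (-((2 : ℝ) - 1))) := by
      refine le_min ?_ (le_of_eq ?_)
      · rw [Real.rpow_one]
        linarith
      · have e2 : T ^ (1 : ℝ) = T ^ (2 : ℝ) * T ^ (-((2 : ℝ) - 1)) := by
          rw [← Real.rpow_add hTpos]
          congr 1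
          ring
        rw [e2, show (2 : ℝ) = ((2 : ℕ) : ℝ) by norm_num, Real.rpow_natCast]
        push_cast
        ring
    have e3 : 4 ≤ T ^ (ε / 2) := by
      have : (4 : ℝ) = ((4 : ℝ) ^ (2 / ε)) ^ (ε / 2) := by
        rw [← Real.rpow_mul (by norm_num)]
        have : 2 / ε * (ε / 2) = 1 := by field_simp
        rw [this, Real.rpow_one]
      rw [this]
      exact Real.rpow_le_rpow (by positivity) hT3 (by positivity)
    have e4 : T ^ (1 - ε) = T ^ (-(ε / 2)) * (T ^ (1 : ℝ) * T ^ (-(ε / 2))) := by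
      rw [← Real.rpow_add hTpos, ← Real.rpow_add hTpos]
      congr 1
      ring
    have e5 : T ^ (-(ε / 2)) ≤ 1 / 4 := by
      rw [Real.rpow_neg hTpos.le, ← one_div]
      exact one_div_le_one_div_of_le (by norm_num) e3
    rw [e4]
    refine mul_le_mul_of_nonneg_left ?_ (by positivity)
    refine le_trans ?_ e1
    have : 0 ≤ T ^ (1 : ℝ) := by positivity
    have h9 := mul_le_mul_of_nonneg_left e5 this
    linarith
  · obtain ⟨z1, z2, z3⟩ := hz z hzZ
    have hlog : Real.log T ≤ T / 8 := by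
      have e1 : Real.log T = 2 * Real.log (Real.sqrt T) := by
        rw [Real.log_sqrt hTpos.le]
        ring
      have e2 : Real.log (Real.sqrt T) ≤ Real.sqrt T - 1 :=
        Real.log_le_sub_one_of_pos (Real.sqrt_pos.2 hTpos)
      have e3 : 16 ≤ Real.sqrt T := Real.le_sqrt_of_sq_le (by norm_num; linarith)
      have e4 : Real.sqrt T * Real.sqrt T = T := Real.mul_self_sqrt hTpos.le
      nlinarith
    have z4 : T ≤ z.im := by linarith
    refine ⟨z4, by linarith, ?_⟩
    have hp : ∀ i, 0 < (wl (F.p i).r (F.p i).τ z).im := by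
      intro i
      change 0 < (wl 2 τ z).im
      rw [wl_im]
      have := neg_abs_le τ
      nlinarith
    have hq : ∀ j, 0 < (wl (F.q j).r (F.q j).τ z).im := by
      intro j
      change 0 < (wl 1 0 z).im
      rw [wl_im]
      linarith
    have hN := order_N F z hp hq
    have hM := order_M F z hp hq
    have hone : ∀ w : ℂ, analyticOrderAt (fun _ : ℂ => (1 : ℂ)) w = 0 := fun w =>
      analyticOrderAt_eq_zero.2 (Or.inr one_ne_zero)
    have hN' : analyticOrderAt F.N z = analyticOrderAt ψ.L (wl 2 τ z) := by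
      rw [hN]
      change (∑ _i : Unit, analyticOrderAt P.num (wl 2 τ z)) +
        ∑ _j : Unit, analyticOrderAt Q.den (wl 1 0 z) = _
      rw [hPnum, hQden]
      simp [hone]
    have hwl : wl 1 0 z = z := by
      unfold wl
      push_cast
      ring
    have hM' : analyticOrderAt F.M z = analyticOrderAt χ.L z := by
      rw [hM]
      change (∑ _i : Unit, analyticOrderAt P.den (wl 2 τ z)) +
        ∑ _j : Unit, analyticOrderAt Q.num (wl 1 0 z) = _
      rw [hPden, hQnum, hwl]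
      simp [hone]
    have h7 : analyticOrderAt F.N z < analyticOrderAt F.M z := z3
    rwa [hN', hM'] at h7

end Pool.Agent.H76.DP.D2a
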